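import Pool.Agent.helper9.TH.Spec

/-!
# Row GL1
-/

namespace Pool.Agent.helper88.TH

open Pool.Agent.helper9.TH

universe u

theorem GL1 (hCQ : CQ_stmt.{u}) (hKG : KG_stmt.{u}) : GL1_stmt.{u} := by
  intro p G _ a b hp hG hab hap hD
  classical
  set D : Set G := {g : G | (Subgroup.closure ({a, g⁻¹ * b * g} : Set G) : Set G).Infinite} with hDdef
  -- the centralizer of `a` is finite
  have hC : (Subgroup.centralizer {a} : Set G) ⊆ D := by
    intro g hg
    have hga : g⁻¹ * a * g = a := by
      have h1 : a * g = g * a := Subgroup.mem_centralizer_iff.1 hg a (Set.mem_singleton a)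
      rw [mul_assoc, h1, inv_mul_cancel_left]
    have h2 : Subgroup.closure ({a, g⁻¹ * b * g} : Set G) = ⊤ := by
      have h3 : ({a, g⁻¹ * b * g} : Set G) = (MulAut.conj g⁻¹).toMonoidHom '' {a, b} := by
        rw [Set.image_pair]
        have e1 : (MulAut.conj g⁻¹).toMonoidHom a = a := by
          show g⁻¹ * a * g⁻¹⁻¹ = a
          rw [inv_inv, hga]
        have e2 : (MulAut.conj g⁻¹).toMonoidHom b = g⁻¹ * b * g := by
          show g⁻¹ * b * g⁻¹⁻¹ = _
          rw [inv_inv]
        rw [e1, e2]
      rw [h3, ← MonoidHom.map_closure, hab]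
      exact Subgroup.map_top_of_surjective _ (MulAut.conj g⁻¹).surjective
    show (Subgroup.closure ({a, g⁻¹ * b * g} : Set G) : Set G).Infinite
    rw [h2, Subgroup.coe_top]
    exact Set.infinite_univ
  have hCfin : Finite (Subgroup.centralizer {a} : Subgroup G) := (hD.subset hC).to_subtype
  set c := Nat.card (Subgroup.centralizer {a} : Subgroup G) with hc
  -- the bound for the quotients
  have hbound : ∀ (N : Subgroup G) [N.Normal], N.FiniteIndex →
      Nat.card (Subgroup.centralizer {QuotientGroup.mk' N a} : Subgroup (G ⧸ N)) ≤ c := by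
    intro N _ hN
    have hNinf : (N : Set G).Infinite := by
      intro hfin
      have h1 : Finite N := hfin.to_subtype
      have h2 : Finite (G ⧸ N) := inferInstance
      exact not_finite_iff_infinite.2 hG (Finite.of_subgroup_quotient N)
    obtain ⟨g, hgN, hgD⟩ := (hNinf.sdiff hD).nonempty
    set L := Subgroup.closure ({a, g⁻¹ * b * g} : Set G) with hL
    have hLfin : Finite L := (Set.not_infinite.1 hgD).to_subtype
    have haL : a ∈ L := Subgroup.subset_closure (Set.mem_insert _ _)
    have hsurj : Function.Surjective ((QuotientGroup.mk' N).comp L.subtype) := by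
      rw [← MonoidHom.range_eq_top, MonoidHom.range_comp, Subgroup.range_subtype, hL,
        MonoidHom.map_closure, Set.image_pair]
      have h1 : QuotientGroup.mk' N (g⁻¹ * b * g) = QuotientGroup.mk' N b := by
        have h2 : QuotientGroup.mk' N g = 1 := (QuotientGroup.eq_one_iff g).2 hgN
        rw [map_mul, map_mul, map_inv, h2, inv_one, one_mul, mul_one]
      rw [h1, ← Set.image_pair, ← MonoidHom.map_closure, hab]
      exact Subgroup.map_top_of_surjective _ (QuotientGroup.mk'_surjective N)
    have h1 := (hCQ L (G ⧸ N) ((QuotientGroup.mk' N).comp L.subtype) ⟨a, haL⟩ hsurj).1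
    refine h1.trans ?_
    refine Nat.card_le_card_of_injective
      (fun x => (⟨(x : L), ?_⟩ : (Subgroup.centralizer {a} : Subgroup G))) ?_
    · rw [Subgroup.mem_centralizer_iff]
      intro y hy
      rw [Set.mem_singleton_iff] at hy
      subst hy
      have := Subgroup.mem_centralizer_iff.1 x.2 ⟨y, haL⟩ (Set.mem_singleton _)
      exact congrArg Subtype.val this
    · intro x y hxy
      have := congrArg Subtype.val hxy
      exact Subtype.ext (Subtype.ext this)
  -- the choice of `N₀`
  set S : Set ℕ := {m | ∃ (N : Subgroup G) (_ : N.Normal), N.FiniteIndex ∧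
    Nat.card (Subgroup.centralizer {QuotientGroup.mk' N a} : Subgroup (G ⧸ N)) = m} with hS
  have hSne : S.Nonempty := ⟨_, ⊤, inferInstance, inferInstance, rfl⟩
  have hSb : BddAbove S := by
    refine ⟨c, ?_⟩
    rintro m ⟨N, hN, hNf, rfl⟩
    exact hbound N hNf
  obtain ⟨N₀, hN₀, hN₀f, hmax⟩ := Nat.sSup_mem hSne hSb
  refine ⟨N₀, hN₀, hN₀f, ?_⟩
  intro N hN hNf hle
  set f : G ⧸ N →* G ⧸ N₀ := QuotientGroup.map N N₀ (MonoidHom.id G) (by simpa using hle) with hf
  have hfmk : ∀ x : G, f (QuotientGroup.mk' N x) = QuotientGroup.mk' N₀ x := fun x => rfl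
  have hfs : Function.Surjective f := by
    intro y
    obtain ⟨x, rfl⟩ := QuotientGroup.mk'_surjective N₀ y
    exact ⟨QuotientGroup.mk' N x, hfmk x⟩
  have hle2 : Nat.card (Subgroup.centralizer {QuotientGroup.mk' N a} : Subgroup (G ⧸ N)) ≤
      Nat.card (Subgroup.centralizer {f (QuotientGroup.mk' N a)} : Subgroup (G ⧸ N₀)) := by
    rw [hfmk, hmax]
    exact le_csSup hSb ⟨N, hN, hNf, rfl⟩
  have hconj := (hCQ (G ⧸ N) (G ⧸ N₀) f (QuotientGroup.mk' N a) hfs).2 hle2
  refine hKG p (G ⧸ N) (N₀.map (QuotientGroup.mk' N)) (QuotientGroup.mk' N a) hp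
    (hN₀.map _ (QuotientGroup.mk'_surjective N)) ?_
  rintro r ⟨x, hx, rfl⟩
  have h1 : f (QuotientGroup.mk' N a * QuotientGroup.mk' N x) = f (QuotientGroup.mk' N a) := by
    have h0 : QuotientGroup.mk' N₀ x = 1 := (QuotientGroup.eq_one_iff x).2 hx
    rw [map_mul, hfmk x, h0, mul_one]
  obtain ⟨g, hg⟩ := hconj _ h1
  rw [hg, conj_pow, ← map_pow, hap, map_one, mul_one, mul_inv_cancel]

end Pool.Agent.helper88.TH
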